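import Mathlib

namespace Pool.Agent.Results.MP_512501_an.InteriorPeak

open Polynomial

set_option maxRecDepth 100000

lemma amgm (u v w : ℝ) (hu : 0 ≤ u) (hv : 0 ≤ v) (hw : 0 ≤ w) (h : 2 * u + v + 60 * w ≤ 63) :
    u ^ 2 * v * w ^ 60 ≤ 1 := by
  have e : ∀ y : ℝ, y ≤ Real.exp (y - 1) := fun y => by
    have := Real.add_one_le_exp (y - 1); linarith
  have h1 : u ^ 2 ≤ Real.exp (u - 1) ^ 2 := pow_le_pow_left₀ hu (e u) 2
  have h2 : w ^ 60 ≤ Real.exp (w - 1) ^ 60 := by gcongr; exact e w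
  have h3 : u ^ 2 * v * w ^ 60 ≤ Real.exp (u - 1) ^ 2 * Real.exp (v - 1) * Real.exp (w - 1) ^ 60 := by
    have := e v
    gcongr
  refine h3.trans ?_
  rw [← Real.exp_nat_mul, ← Real.exp_nat_mul, ← Real.exp_add, ← Real.exp_add, Real.exp_le_one_iff]
  push_cast
  linarith

noncomputable def Q : ℝ[X] :=
  (X - C (-1)) ^ 2 * (X - C (-479 / 500)) * (X - C (61 / 500)) ^ 60

lemma Q_eval (x : ℝ) : Q.eval x = (x + 1) ^ 2 * (x + 479 / 500) * (x - 61 / 500) ^ 60 := by
  simp only [Q, eval_mul, eval_pow, eval_sub, eval_X, eval_C]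
  ring

lemma Q_der (x : ℝ) : (derivative Q).eval x =
    (2 * (x + 1) * (x + 479 / 500) * (x - 61 / 500) + (x + 1) ^ 2 * (x - 61 / 500)
      + 60 * (x + 1) ^ 2 * (x + 479 / 500)) * (x - 61 / 500) ^ 59 := by
  simp only [Q, derivative_mul, derivative_pow, derivative_sub, derivative_X, derivative_C,
    eval_mul, eval_add, eval_pow, eval_sub, eval_X, eval_C, eval_one, eval_zero]
  have : (x - 61 / 500) ^ 60 = (x - 61 / 500) ^ 59 * (x - 61 / 500) := by ring
  norm_num
  rw [this]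
  generalize (x - 61 / 500) ^ 59 = t
  ring

lemma dom (x : ℝ) (h1 : -1 ≤ x) (h2 : x ≤ 1) : |Q.eval x| ≤ |Q.eval 1| := by
  have hQ1 : |Q.eval 1| = 4 * (979 / 500) * (439 / 500) ^ 60 := by
    rw [Q_eval, abs_of_nonneg (by positivity)]; norm_num
  have habs : |Q.eval x| = (x + 1) ^ 2 * |x + 479 / 500| * |x - 61 / 500| ^ 60 := by
    rw [Q_eval, abs_mul, abs_mul, abs_pow, abs_pow, sq_abs]
  rw [hQ1, habs]
  rcases le_total x (-479 / 500) with ha | ha
  · rw [abs_of_nonpos (by linarith : x + 479 / 500 ≤ 0), abs_of_nonpos (by linarith : x - 61 / 500 ≤ 0)]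
    have := amgm (50 * (x + 1)) (4558 / 100 * (-(x + 479 / 500))) (907 / 1000 * (-(x - 61 / 500)))
      (by linarith) (by linarith) (by linarith) (by linarith)
    rw [mul_pow, mul_pow] at this
    have hk : (1 : ℝ) ≤ (50 ^ 2 * (4558 / 100) * (907 / 1000) ^ 60) * (4 * (979 / 500) * (439 / 500) ^ 60) := by
      norm_num
    have hp : (0 : ℝ) < 50 ^ 2 * (4558 / 100) * (907 / 1000) ^ 60 := by positivity
    refine le_of_mul_le_mul_left ?_ hp
    refine le_trans (le_of_eq ?_) (this.trans hk)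
    generalize (-(x - 61 / 500)) ^ 60 = t
    generalize ((907 : ℝ) / 1000) ^ 60 = s
    ring
  rcases le_total x (61 / 500) with hb | hb
  · rw [abs_of_nonneg (by linarith : 0 ≤ x + 479 / 500), abs_of_nonpos (by linarith : x - 61 / 500 ≤ 0)]
    have := amgm (1337 / 100 * (x + 1)) (30548 / 1000 * (x + 479 / 500)) (9548 / 10000 * (-(x - 61 / 500)))
      (by linarith) (by linarith) (by linarith) (by linarith)
    rw [mul_pow, mul_pow] at this
    have hk : (1 : ℝ) ≤ ((1337 / 100) ^ 2 * (30548 / 1000) * (9548 / 10000) ^ 60) *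
        (4 * (979 / 500) * (439 / 500) ^ 60) := by
      norm_num
    have hp : (0 : ℝ) < (1337 / 100) ^ 2 * (30548 / 1000) * (9548 / 10000) ^ 60 := by positivity
    refine le_of_mul_le_mul_left ?_ hp
    refine le_trans (le_of_eq ?_) (this.trans hk)
    generalize (-(x - 61 / 500)) ^ 60 = t
    generalize ((9548 : ℝ) / 10000) ^ 60 = s
    ring
  · rw [abs_of_nonneg (by linarith : 0 ≤ x + 479 / 500), abs_of_nonneg (by linarith : 0 ≤ x - 61 / 500)]
    have e1 : (x + 1) ^ 2 ≤ 4 := by nlinarith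
    have e2 : x + 479 / 500 ≤ 979 / 500 := by linarith
    have e3 : (x - 61 / 500) ^ 60 ≤ (439 / 500) ^ 60 :=
      pow_le_pow_left₀ (by linarith) (by linarith) 60
    have e4 : (0 : ℝ) ≤ x - 61 / 500 := by linarith
    exact mul_le_mul (mul_le_mul e1 e2 (by linarith) (by norm_num)) e3 (pow_nonneg e4 _) (by norm_num)

lemma Q_monic : Q.Monic :=
  (((monic_X_sub_C _).pow 2).mul (monic_X_sub_C _)).mul ((monic_X_sub_C _).pow 60)

lemma Q_deg : Q.natDegree = 63 := by
  unfold Q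
  rw [Monic.natDegree_mul (((monic_X_sub_C _).pow 2).mul (monic_X_sub_C _)) ((monic_X_sub_C _).pow 60),
    Monic.natDegree_mul ((monic_X_sub_C _).pow 2) (monic_X_sub_C _), Monic.natDegree_pow (monic_X_sub_C _),
    Monic.natDegree_pow (monic_X_sub_C _), natDegree_X_sub_C, natDegree_X_sub_C, natDegree_X_sub_C]

lemma Q_roots : Q.roots = 2 • {(-1 : ℝ)} + {(-479 / 500 : ℝ)} + 60 • {(61 / 500 : ℝ)} := by
  have h := Q_monic.ne_zero
  unfold Q at h ⊢
  rw [roots_mul h, roots_mul (left_ne_zero_of_mul h), roots_pow, roots_pow, roots_X_sub_C,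
    roots_X_sub_C, roots_X_sub_C]

theorem result :
    ∃ Q : ℝ[X], 1 ≤ Q.natDegree ∧ Multiset.card Q.roots = Q.natDegree ∧
      (∀ r ∈ Q.roots, r ∈ Set.Icc (-1 : ℝ) 1) ∧
      (∀ x ∈ Set.Icc (-1 : ℝ) 1, |Q.eval x| ≤ |Q.eval 1|) ∧
      ∃ x₀ ∈ Set.Ioo (-1 : ℝ) 1,
        max |(derivative Q).eval (-1)| |(derivative Q).eval 1| < |(derivative Q).eval x₀| := by
  refine ⟨Q, by rw [Q_deg]; norm_num, ?_, ?_, fun x hx => dom x hx.1 hx.2, -993 / 1000,
    ⟨by norm_num, by norm_num⟩, ?_⟩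
  · rw [Q_deg, Q_roots, Multiset.card_add, Multiset.card_add, Multiset.card_nsmul,
      Multiset.card_nsmul, Multiset.card_singleton, Multiset.card_singleton, Multiset.card_singleton]
  · intro r hr
    rw [Q_roots] at hr
    simp only [Multiset.mem_add, Multiset.mem_singleton] at hr
    rcases hr with (hr | hr) | hr
    · have := Multiset.mem_singleton.1 (Multiset.mem_of_mem_nsmul hr)
      rw [this]; constructor <;> norm_num
    · rw [hr]; constructor <;> norm_num
    · have := Multiset.mem_singleton.1 (Multiset.mem_of_mem_nsmul hr)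
      rw [this]; constructor <;> norm_num
  · rw [Q_der, Q_der, Q_der, max_lt_iff]
    have h0 : (0 : ℝ) < (2 * (-993 / 1000 + 1) * (-993 / 1000 + 479 / 500) * (-993 / 1000 - 61 / 500) +
        (-993 / 1000 + 1) ^ 2 * (-993 / 1000 - 61 / 500) +
        60 * (-993 / 1000 + 1) ^ 2 * (-993 / 1000 + 479 / 500)) := by norm_num
    have h1 : |(-993 / 1000 - 61 / 500 : ℝ)| = 1115 / 1000 := by
      rw [abs_of_neg (by norm_num)]; norm_num
    have h2 : |(1 - 61 / 500 : ℝ)| = 439 / 500 := by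
      rw [abs_of_pos (by norm_num)]; norm_num
    have h3 : (0 : ℝ) < (2 * (1 + 1) * (1 + 479 / 500) * (1 - 61 / 500) +
        (1 + 1) ^ 2 * (1 - 61 / 500) + 60 * (1 + 1) ^ 2 * (1 + 479 / 500)) := by norm_num
    have h4 : (2 * (-1 + 1) * (-1 + 479 / 500) * (-1 - 61 / 500) +
        (-1 + 1) ^ 2 * (-1 - 61 / 500) + 60 * (-1 + 1) ^ 2 * (-1 + 479 / 500) : ℝ) = 0 := by norm_num
    rw [h4, zero_mul, abs_zero, abs_mul, abs_mul, abs_pow, abs_pow, h1, h2, abs_of_pos h0,
      abs_of_pos h3]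
    constructor
    · positivity
    · norm_num

end Pool.Agent.Results.MP_512501_an.InteriorPeak
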